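import Pool.Agent.Y136.MM.Single
import Pool.Agent.Y136.MM.Product

/-!
# MP_3570a5_nt: non-negativity for one group of vectors, counterexamples for every larger number

The definitions (`Idx`, `InK0`, `coefC`, `phi0`, `phi`, `logMirror`, `poly`, `Standing`, `Fano`) are
those of the starting file `NegativeCoefficient`.

Proof for `p = 1`. Let `u` be the sum of the variables, `F = 1 / (1 - u)` and let `L` be
`- log (1 - u_j)`, where `u_j` is the sum of the variables different from the `j`-th. Then `φ₀` and
`φ_j` are the parts of `F` and of `L F` with exponents in `K₀`, so `φ_j / φ₀` is the part of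
`L (F / φ₀)` with exponents in `K₀`; and `F / φ₀` has non-negative coefficients (they count the
words without closed initial segments).
-/

namespace Pool.Agent.Results.MP_3570a5_nt.OneGroup

open Pool.Agent.Results.MP_3570a5_nt.NegativeCoefficient Pool.Agent.Y136.MM

/-- (1) For `p = 1` the answer is yes, for all data: all coefficients of `φ_j / φ₀` are
non-negative, without any hypothesis on the vectors (neither Fano nor the standing assumptions).

(2) For every `p ≥ 2` the answer is no: there are Fano data satisfying the standing assumptions,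
with `d = p + 1` and distinct non-zero vectors, for which some coefficient is negative. -/
theorem result :
    (∀ (d : ℕ) (q : Fin 1 → ℕ) (v : Idx q → Fin d → ℤ) (a : Idx q) (k : Idx q →₀ ℕ),
      0 ≤ MvPowerSeries.coeff k (logMirror v a)) ∧
    (∀ p : ℕ, 2 ≤ p → ∃ (q : Fin p → ℕ) (v : Idx q → Fin (p + 1) → ℤ),
      (∀ i, 1 ≤ q i) ∧ Function.Injective v ∧ (∀ a, v a ≠ 0) ∧ Standing v ∧ Fano v ∧
        ∃ (a : Idx q) (k : Idx q →₀ ℕ), InK0 v k ∧
          MvPowerSeries.coeff k (logMirror v a) < 0) := by
  refine ⟨fun d q v a k => logMirror_nonneg v a k, fun p hp => ?_⟩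
  obtain ⟨n, rfl⟩ : ∃ n, p = n + 2 := ⟨p - 2, by omega⟩
  exact bad_all n

end Pool.Agent.Results.MP_3570a5_nt.OneGroup
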