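import Pool.Agent.Y825.NM.Explicit

/-!
Negative coefficients of `φ_{ij} / φ₀` in every dimension `d ≥ 3` and for every number of groups
`2 ≤ p ≤ d - 1`: infinitely many of them, and exponentially large ones.

* For the data of `NegativeCoefficient.lean` (`d = 3`, `p = 2`) the generating series of the
  coefficients at the exponents `(2,1,1; 2n,n,n)` is computed (`Y825/NM/Series.lean`,
  `Y825/NM/Value.lean`): it is `7 - 4 X h²` with `h = (∑ w_j X^j) / (∑ m_j X^j)`,
  `m_j = (4j)! / ((2j)! j!²)` and `w_j = (4j+2)! / ((2j+1)! j! (j+1)!)`, and all coefficients of `h`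
  are shown to be at least `2·4^n`.
* One dimension is added at a time (`Y825/NM/Ext.lean`, `Poly.lean`, `Explicit.lean`): two new
  vectors `± e` are put into an old group or into a new group; the standing assumptions, the Fano
  property and all coefficients of `φ_{ij} / φ₀` are inherited.
-/

set_option autoImplicit false

open Finset

namespace Pool.Agent.Results.MP_3570a5_nt.UnboundedInEveryDimension

open Pool.Agent.Results.MP_3570a5_nt.NegativeCoefficient

/-- **Failure in every dimension.** For all `d ≥ 3` and `2 ≤ p ≤ d - 1` there are Fano data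
satisfying the standing assumptions (with pairwise distinct non-zero vectors) and an index
`a = (i, j)` such that for every `n` some exponent `k ∈ K₀` of total degree `4n + 8` has a
coefficient `≤ -4^(n+2)` in `φ_{ij} / φ₀`. -/
theorem result (d p : ℕ) (h2 : 2 ≤ p) (hp : p + 1 ≤ d) :
    ∃ (q : Fin p → ℕ) (v : Idx q → Fin d → ℤ),
      (∀ i, 1 ≤ q i) ∧ Function.Injective v ∧ (∀ a, v a ≠ 0) ∧ Standing v ∧ Fano v ∧
      ∃ a : Idx q, ∀ n : ℕ, ∃ k : Idx q →₀ ℕ, InK0 v k ∧ ∑ b, k b = 4 * n + 8 ∧
        MvPowerSeries.coeff k (logMirror v a) ≤ -4 ^ (n + 2) :=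
  Pool.Agent.Y825.NM.good_all d p h2 hp

end Pool.Agent.Results.MP_3570a5_nt.UnboundedInEveryDimension
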